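import Pool.Agent.Run7.h855.Full

/-! MP_07dfc7_co: all pairs `(H₁, H₂)` for which the connected graphs excluding `H₁` and `H₂` as
contractions are well-quasi-ordered by contraction. -/

namespace Pool.Agent.Results.MP_07dfc7_co.AllPairs

open Pool.Agent.Run7.h855

theorem result : ∀ (V₁ V₂ : Type) (H₁ : SimpleGraph V₁) (H₂ : SimpleGraph V₂),
    Wqo H₁ H₂ ↔ Small H₁ ∨ Small H₂ ∨ Pair H₁ H₂ ∨ Pair H₂ H₁ :=
  fun _ _ _ _ => classification

end Pool.Agent.Results.MP_07dfc7_co.AllPairs
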